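import Mathlib

/-!
# The Tate-Shafarevich group of an elliptic curve over `ℚ`

`Ш(W) = ker (H¹(ℚ, W) → ∏ H¹(ℚ_v, W))`, with continuous cocycles of the absolute Galois groups.
-/

set_option autoImplicit false

namespace Pool.Agent.TH841.SH.D

open WeierstrassCurve

section

variable {k : Type} [Field k]

/-- the points of `W` over the field `L` -/
def Pt (W : WeierstrassCurve k) (L : Type) [Field L] [Algebra k L] : Type :=
  (W.baseChange L).toAffine.Point

/-- the group law on the points -/
noncomputable instance Pt.group (W : WeierstrassCurve k) (L : Type) [Field L] [Algebra k L] :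
    AddCommGroup (Pt W L) :=
  @Affine.Point.instAddCommGroup L _ (W.baseChange L).toAffine (Classical.decEq L)

/-- the map on points given by a homomorphism of fields -/
noncomputable def act (W : WeierstrassCurve k) {F L : Type} [Field F] [Field L] [Algebra k F]
    [Algebra k L] (φ : F →ₐ[k] L) : Pt W F →+ Pt W L :=
  @Affine.Point.map k k F L _ _ _ _ W (Classical.decEq F) (Classical.decEq L) _ _ _ _ _ _ _ φ

/-- the absolute Galois group, with the Krull topology -/
abbrev Gal (k : Type) [Field k] : Type := AlgebraicClosure k ≃ₐ[k] AlgebraicClosure k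

/-- functions on the absolute Galois group with values in the points over the algebraic closure -/
def Coch (W : WeierstrassCurve k) : Type := Gal k → Pt W (AlgebraicClosure k)

/-- the group of the functions -/
noncomputable instance Coch.group (W : WeierstrassCurve k) : AddCommGroup (Coch W) :=
  @Pi.addCommGroup (Gal k) (fun _ => Pt W (AlgebraicClosure k)) (fun _ => Pt.group W _)

/-- `f` is a continuous cocycle: `f (σ τ) = f σ + σ (f τ)` -/
def IsCoc (W : WeierstrassCurve k) (f : Coch W) : Prop :=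
  IsLocallyConstant f ∧ ∀ σ τ : Gal k, f (σ * τ) = f σ + act W σ.toAlgHom (f τ)

/-- `f` is a coboundary: `f σ = σ P - P` -/
def IsCob (W : WeierstrassCurve k) (f : Coch W) : Prop :=
  ∃ P : Pt W (AlgebraicClosure k), ∀ σ : Gal k, f σ = act W σ.toAlgHom P - P

/-- for every embedding of the algebraic closures the restriction of `f` to the absolute Galois
group of `K ⊇ k` is a coboundary -/
def LocTriv (W : WeierstrassCurve k) (K : Type) [Field K] [Algebra k K] (f : Coch W) : Prop :=
  ∀ ι : AlgebraicClosure k →ₐ[k] AlgebraicClosure K, ∃ P : Pt W (AlgebraicClosure K),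
    ∀ (τ : Gal K) (σ : Gal k), (∀ x, τ (ι x) = ι (σ x)) →
      act W ι (f σ) = act W (τ.toAlgHom.restrictScalars k) P - P

lemma coc_zero (W : WeierstrassCurve k) : IsCoc W 0 :=
  ⟨IsLocallyConstant.const _, fun σ τ => by
    change (0 : Pt W (AlgebraicClosure k)) = 0 + act W σ.toAlgHom 0
    rw [map_zero, add_zero]⟩

lemma coc_add {W : WeierstrassCurve k} {f g : Coch W} (hf : IsCoc W f) (hg : IsCoc W g) :
    IsCoc W (f + g) :=
  ⟨hf.1.add hg.1, fun σ τ => by
    change f (σ * τ) + g (σ * τ) = f σ + g σ + act W σ.toAlgHom (f τ + g τ)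
    rw [hf.2, hg.2, map_add]
    abel⟩

lemma coc_neg {W : WeierstrassCurve k} {f : Coch W} (hf : IsCoc W f) : IsCoc W (-f) :=
  ⟨hf.1.neg, fun σ τ => by
    change -f (σ * τ) = -f σ + act W σ.toAlgHom (-f τ)
    rw [hf.2, map_neg]
    abel⟩

lemma cob_zero (W : WeierstrassCurve k) : IsCob W 0 :=
  ⟨0, fun σ => by
    change (0 : Pt W (AlgebraicClosure k)) = act W σ.toAlgHom 0 - 0
    rw [map_zero, sub_zero]⟩

lemma cob_add {W : WeierstrassCurve k} {f g : Coch W} (hf : IsCob W f) (hg : IsCob W g) :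
    IsCob W (f + g) := by
  obtain ⟨P, hP⟩ := hf
  obtain ⟨Q, hQ⟩ := hg
  refine ⟨P + Q, fun σ => ?_⟩
  change f σ + g σ = _
  rw [hP, hQ, map_add]
  abel

lemma cob_neg {W : WeierstrassCurve k} {f : Coch W} (hf : IsCob W f) : IsCob W (-f) := by
  obtain ⟨P, hP⟩ := hf
  refine ⟨-P, fun σ => ?_⟩
  change -f σ = _
  rw [hP, map_neg]
  abel

lemma loc_zero (W : WeierstrassCurve k) (K : Type) [Field K] [Algebra k K] : LocTriv W K 0 :=
  fun ι => ⟨0, fun τ σ _ => by
    change act W ι 0 = _
    rw [map_zero, map_zero, sub_zero]⟩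

lemma loc_add {W : WeierstrassCurve k} {K : Type} [Field K] [Algebra k K] {f g : Coch W}
    (hf : LocTriv W K f) (hg : LocTriv W K g) : LocTriv W K (f + g) := by
  intro ι
  obtain ⟨P, hP⟩ := hf ι
  obtain ⟨Q, hQ⟩ := hg ι
  refine ⟨P + Q, fun τ σ h => ?_⟩
  change act W ι (f σ + g σ) = _
  rw [map_add, map_add, hP τ σ h, hQ τ σ h]
  abel

lemma loc_neg {W : WeierstrassCurve k} {K : Type} [Field K] [Algebra k K] {f : Coch W}
    (hf : LocTriv W K f) : LocTriv W K (-f) := by
  intro ι
  obtain ⟨P, hP⟩ := hf ι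
  refine ⟨-P, fun τ σ h => ?_⟩
  change act W ι (-f σ) = _
  rw [map_neg, map_neg, hP τ σ h]
  abel

/-- the group of the coboundaries -/
def cob (W : WeierstrassCurve k) : AddSubgroup (Coch W) where
  carrier := {f | IsCob W f}
  zero_mem' := cob_zero W
  add_mem' := cob_add
  neg_mem' := cob_neg

end

/-- a continuous cocycle that is locally trivial at all the places of `ℚ` -/
def IsShaCoc (W : WeierstrassCurve ℚ) (f : Coch W) : Prop :=
  IsCoc W f ∧ (∀ (p : ℕ) [Fact p.Prime], LocTriv W ℚ_[p] f) ∧ LocTriv W ℝ f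

lemma sha_zero (W : WeierstrassCurve ℚ) : IsShaCoc W 0 :=
  ⟨coc_zero W, fun _ _ => loc_zero W _, loc_zero W _⟩

lemma sha_add {W : WeierstrassCurve ℚ} {f g : Coch W} (hf : IsShaCoc W f) (hg : IsShaCoc W g) :
    IsShaCoc W (f + g) :=
  ⟨coc_add hf.1 hg.1, fun p _ => loc_add (hf.2.1 p) (hg.2.1 p), loc_add hf.2.2 hg.2.2⟩

lemma sha_neg {W : WeierstrassCurve ℚ} {f : Coch W} (hf : IsShaCoc W f) : IsShaCoc W (-f) :=
  ⟨coc_neg hf.1, fun p _ => loc_neg (hf.2.1 p), loc_neg hf.2.2⟩

/-- the group of the continuous cocycles that are locally trivial at all the places of `ℚ` -/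
def shaCoc (W : WeierstrassCurve ℚ) : AddSubgroup (Coch W) where
  carrier := {f | IsShaCoc W f}
  zero_mem' := sha_zero W
  add_mem' := sha_add
  neg_mem' := sha_neg

/-- the Tate-Shafarevich group of `W` over `ℚ` -/
def Sha (W : WeierstrassCurve ℚ) : Type := shaCoc W ⧸ (cob W).addSubgroupOf (shaCoc W)

/-- the group law on the Tate-Shafarevich group -/
noncomputable instance Sha.group (W : WeierstrassCurve ℚ) : AddCommGroup (Sha W) :=
  @QuotientAddGroup.Quotient.addCommGroup (shaCoc W) _ ((cob W).addSubgroupOf (shaCoc W))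

/-- the elements killed by `n` -/
def ShaTor (W : WeierstrassCurve ℚ) (n : ℕ) : Type := {x : Sha W // n • x = 0}

/-- the group `ℚ₂ / ℤ₂` -/
abbrev Pruf : Type := ℚ_[2] ⧸ (PadicInt.subring 2).toAddSubgroup

/-- the Tate-Shafarevich group has a subgroup isomorphic to `(ℚ₂ / ℤ₂) ^ δ` -/
def HasDiv (W : WeierstrassCurve ℚ) (δ : ℕ) : Prop :=
  ∃ f : (Fin δ → Pruf) →+ Sha W, Function.Injective f

/-- the rank of the group of the rational points -/
noncomputable def rk (W : WeierstrassCurve ℚ) : ℕ := Module.finrank ℤ W.toAffine.Point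

end Pool.Agent.TH841.SH.D
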